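import Pool.Agent.Helper28.JM.Crit

/-!
# Definitions for the construction of the weight
-/

set_option autoImplicit false

namespace Pool.Agent.Helper28.JM

/-- The opener of column `i`. -/
def va (p c : ℤ) (τ : Bool) (i : ℤ) : Pt := if τ then (p, c + i) else (p + 1, c + i)

/-- The closer of column `i`. -/
def vb (p c : ℤ) (τ : Bool) (i : ℤ) : Pt := if τ then (p + 1, c + i) else (p, c + i)

/-- The state of the construction: the region has a bottom strip on the vertical lines `p`,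
`p + 1` with columns at heights `c, …, c + N`. -/
structure StF (Λ : Set Pt) (W : Pt → ℝ) (p c N : ℤ) (τ : Bool) : Prop where
  N1 : 1 ≤ N
  lo : ∀ x ∈ Λ, p ≤ x.1 ∧ c ≤ x.2
  P : ∀ j, (p, j) ∈ Λ ↔ c ≤ j ∧ j ≤ c + N
  Q : ∀ j, c ≤ j → j ≤ c + N → (p + 1, j) ∈ Λ
  dtop : ∀ i, 0 ≤ i → i < N → W (va p c τ i) - W (vb p c τ i) < W (va p c τ N) - W (vb p c τ N)
  ddec : ∀ i j, 0 ≤ i → i < j → j < N →
    W (va p c τ j) - W (vb p c τ j) < W (va p c τ i) - W (vb p c τ i)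
  locA : ∀ R ∈ Mn Λ, ∀ i, 0 ≤ i → i ≤ N - 2 → va p c τ i ∈ ld W R →
    ∃ j, i < j ∧ j ≤ N - 1 ∧ R = ((p, c + i), (p + 1, c + j))
  locB : ∀ R ∈ Mn Λ, ∀ i, 0 ≤ i → i ≤ N - 2 → vb p c τ i ∈ ld W R →
    (∃ j, 0 ≤ j ∧ j < i ∧ R = ((p, c + j), (p + 1, c + i))) ∨ R = ((p, c + i), (p + 1, c + N))

/-- Bound for the levels of the vertices of the strip. -/
def Bd (K p c N : ℤ) (τ : Bool) : Prop := p + c + N + (if τ then 0 else 1) ≤ K

/-- Transposed region. -/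
def swS (Λ : Set Pt) : Set Pt := {x | (x.2, x.1) ∈ Λ}

/-- Reflected region. -/
def ngS (Λ : Set Pt) : Set Pt := {x | (-x.1, -x.2) ∈ Λ}

/-- Transposed weight. -/
def swW (W : Pt → ℝ) : Pt → ℝ := fun x => W (x.2, x.1)

/-- Reflected weight. -/
def ngW (W : Pt → ℝ) : Pt → ℝ := fun x => W (-x.1, -x.2)

/-- The property `rect` alone. -/
def RectP (Λ : Set Pt) : Prop :=
  ∀ i i' j j' s t : ℤ, (i, j') ∈ Λ → (i', j) ∈ Λ → i ≤ s → s ≤ i' → j ≤ t → t ≤ j' → (s, t) ∈ Λ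

/-- The `3 × 3` block with corner `u`. -/
def blk (u : Pt) : Set Pt := {x | u.1 ≤ x.1 ∧ x.1 ≤ u.1 + 2 ∧ u.2 ≤ x.2 ∧ x.2 ≤ u.2 + 2}

/-- The unit square with corner `u`. -/
def sqr (u : Pt) : Set Pt := {x | u.1 ≤ x.1 ∧ x.1 ≤ u.1 + 1 ∧ u.2 ≤ x.2 ∧ x.2 ≤ u.2 + 1}

open Classical in
/-- The weight on the block: the indicator of the middle level. -/
noncomputable def blkW (u : Pt) : Pt → ℝ := fun x => if x.1 + x.2 = u.1 + u.2 + 2 then 1 else 0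

end Pool.Agent.Helper28.JM
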