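import Pool.Agent.Helper28.JM.BDefs

/-!
# Adding a column at the bottom of a region
-/

set_option autoImplicit false

namespace Pool.Agent.Helper28.JM

theorem mem_nu {W : Pt → ℝ} {E : Multiset (Pt × Pt)} {x : Pt} :
    x ∈ nu W E ↔ ∃ R ∈ E, x ∈ ld W R := by
  change x ∈ E.bind (ld W) ↔ _
  exact Multiset.mem_bind

theorem ld_of_gt {W : Pt → ℝ} {p c : ℤ} {τ : Bool} {i j : ℤ}
    (h : W (va p c τ j) - W (vb p c τ j) < W (va p c τ i) - W (vb p c τ i)) :
    ld W ((p, c + i), (p + 1, c + j)) = {va p c τ i, vb p c τ j} := by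
  cases τ
  · simp only [va, vb, Bool.false_eq_true, if_false] at h ⊢
    unfold ld IsD
    rw [if_neg (by simp only; linarith)]
    exact Multiset.pair_comm _ _
  · simp only [va, vb, if_true] at h ⊢
    unfold ld IsD
    rw [if_pos (by simp only; linarith)]

theorem ld_of_lt {W : Pt → ℝ} {p c : ℤ} {τ : Bool} {i j : ℤ}
    (h : W (va p c τ i) - W (vb p c τ i) < W (va p c τ j) - W (vb p c τ j)) :
    ld W ((p, c + i), (p + 1, c + j)) = {va p c τ j, vb p c τ i} := by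
  cases τ
  · simp only [va, vb, Bool.false_eq_true, if_false] at h ⊢
    unfold ld IsD
    rw [if_pos (by simp only; linarith)]
    exact Multiset.pair_comm _ _
  · simp only [va, vb, if_true] at h ⊢
    unfold ld IsD
    rw [if_neg (by simp only; linarith)]

section forced

variable {Λ : Set Pt} {W : Pt → ℝ} {p c N : ℤ} {τ : Bool}

theorem StF.ld_lt (h : StF Λ W p c N τ) {i j : ℤ} (hi : 0 ≤ i) (hij : i < j) (hj : j < N) :
    ld W ((p, c + i), (p + 1, c + j)) = {va p c τ i, vb p c τ j} :=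
  ld_of_gt (h.ddec i j hi hij hj)

theorem StF.ld_top (h : StF Λ W p c N τ) {i : ℤ} (hi : 0 ≤ i) (hij : i < N) :
    ld W ((p, c + i), (p + 1, c + N)) = {va p c τ N, vb p c τ i} :=
  ld_of_lt (h.dtop i hi hij)

theorem forced (h : StF Λ W p c N τ) (hN : 2 ≤ N) (E E' : Multiset (Pt × Pt))
    (hE : ∀ R ∈ E, R ∈ Mn Λ) (hE' : ∀ R ∈ E', R ∈ Mn Λ) (hs : Std E) (hs' : Std E')
    (hnu : nu W E = nu W E')
    (hx : va p c τ 0 ∈ nu W E ∨ vb p c τ 0 ∈ nu W E) : ∃ R, R ∈ E ∧ R ∈ E' := by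
  suffices H : ∃ R, ∀ F : Multiset (Pt × Pt), (∀ R ∈ F, R ∈ Mn Λ) → Std F → nu W F = nu W E →
      R ∈ F by
    obtain ⟨R, hR⟩ := H
    exact ⟨R, hR E hE hs rfl, hR E' hE' hs' hnu.symm⟩
  by_cases hb : vb p c τ 0 ∈ nu W E
  · refine ⟨((p, c + 0), (p + 1, c + N)), fun F hF hsF hnF => ?_⟩
    rw [← hnF, mem_nu] at hb
    obtain ⟨R, hR, hRb⟩ := hb
    rcases h.locB R (hF R hR) 0 le_rfl (by linarith) hRb with ⟨j, h1, h2, -⟩ | h1
    · omega
    · rwa [← h1]
  have ha : va p c τ 0 ∈ nu W E := hx.resolve_right hb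
  by_cases hS : ∃ i : ℤ, 1 ≤ i ∧ i ≤ N - 2 ∧ vb p c τ i ∈ nu W E
  · obtain ⟨i, ⟨hi1, hi2, hi3⟩, hmin⟩ := Int.exists_least_of_bdd
      (P := fun i : ℤ => 1 ≤ i ∧ i ≤ N - 2 ∧ vb p c τ i ∈ nu W E)
      ⟨1, fun z hz => hz.1⟩ hS
    obtain ⟨j, ⟨hj1, hj2, hj3⟩, hmax⟩ := Int.exists_greatest_of_bdd
      (P := fun j : ℤ => 0 ≤ j ∧ j < i ∧ va p c τ j ∈ nu W E)
      ⟨i, fun z hz => hz.2.1.le⟩ ⟨0, le_rfl, by omega, ha⟩
    refine ⟨((p, c + j), (p + 1, c + i)), fun F hF hsF hnF => ?_⟩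
    have hi3' := hi3
    have hj3' := hj3
    rw [← hnF, mem_nu] at hi3' hj3'
    obtain ⟨y, hy, hyb⟩ := hi3'
    obtain ⟨y', hy', hya⟩ := hj3'
    obtain ⟨k, hk1, hk2, hk3⟩ := h.locA y' (hF y' hy') j hj1 (by omega) hya
    have hkb : vb p c τ k ∈ nu W E := by
      rw [← hnF, mem_nu]
      refine ⟨y', hy', ?_⟩
      rw [hk3, h.ld_lt hj1 hk1 (by omega)]
      simp
    have hki : i ≤ k := by
      by_contra hlt
      exact hlt (hmin k ⟨by omega, by omega, hkb⟩)
    rcases hki.eq_or_lt with rfl | hki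
    · rwa [← hk3]
    rcases h.locB y (hF y hy) i (by omega) hi2 hyb with ⟨j', h1, h2, h3⟩ | h3
    · have hja : va p c τ j' ∈ nu W E := by
        rw [← hnF, mem_nu]
        refine ⟨y, hy, ?_⟩
        rw [h3, h.ld_lt h1 h2 (by omega)]
        simp
      have hjj := hmax j' ⟨h1, h2, hja⟩
      rcases hjj.eq_or_lt with rfl | hjj
      · rwa [← h3]
      · exfalso
        refine (hsF y hy y' hy').1 ?_
        rw [h3, hk3]
        exact ⟨rfl, rfl, rfl, by simpa using hjj, by simpa using hj2, by simpa using hki⟩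
    · exfalso
      refine (hsF y' hy' y hy).1 ?_
      rw [h3, hk3]
      exact ⟨rfl, rfl, rfl, by simpa using hj2, by simpa using hki, by simp; omega⟩
  · refine ⟨((p, c + 0), (p + 1, c + (N - 1))), fun F hF hsF hnF => ?_⟩
    have ha' := ha
    rw [← hnF, mem_nu] at ha'
    obtain ⟨y', hy', hya⟩ := ha'
    obtain ⟨k, hk1, hk2, hk3⟩ := h.locA y' (hF y' hy') 0 le_rfl (by omega) hya
    have hkb : vb p c τ k ∈ nu W E := by
      rw [← hnF, mem_nu]
      refine ⟨y', hy', ?_⟩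
      rw [hk3, h.ld_lt le_rfl hk1 (by omega)]
      simp
    have : k = N - 1 := by
      by_contra hne
      exact hS ⟨k, by omega, by omega, hkb⟩
    rw [← this]
    rwa [← hk3]

/-- A common element can be removed. -/
theorem uniq_aux {W : Pt → ℝ} (n : ℕ) : ∀ (E E' : Multiset (Pt × Pt)), Multiset.card E = n → (∀ R ∈ E, R ∈ Mn Λ) →
      (∀ R ∈ E', R ∈ Mn Λ) → Std E → Std E' → nu W E = nu W E' →
      (∀ F F' : Multiset (Pt × Pt), (∀ R ∈ F, R ∈ Mn Λ) →
        (∀ R ∈ F', R ∈ Mn Λ) → Std F → Std F' → nu W F = nu W F' →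
        (∃ R, R ∈ F ∧ R ∈ F') ∨ F = F') → E = E' := by
  induction n with
  | zero =>
    intro E E' hc hE hE' hs hs' hnu H
    rcases H E E' hE hE' hs hs' hnu with ⟨R, hR, -⟩ | h
    · rw [Multiset.card_eq_zero.1 hc] at hR
      exact absurd hR (Multiset.notMem_zero _)
    · exact h
  | succ n ih =>
    intro E E' hc hE hE' hs hs' hnu H
    rcases H E E' hE hE' hs hs' hnu with ⟨R, hR, hR'⟩ | h
    · obtain ⟨E1, rfl⟩ := Multiset.exists_cons_of_mem hR
      obtain ⟨E1', rfl⟩ := Multiset.exists_cons_of_mem hR'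
      have h1 : nu W E1 = nu W E1' := by
        simp only [nu, Multiset.map_cons, Multiset.sum_cons] at hnu ⊢
        exact add_left_cancel hnu
      rw [ih E1 E1' (by simpa using hc) (fun R hR => hE R (Multiset.mem_cons_of_mem hR))
        (fun R hR => hE' R (Multiset.mem_cons_of_mem hR))
        (fun R hR R' hR' => hs R (Multiset.mem_cons_of_mem hR) R' (Multiset.mem_cons_of_mem hR'))
        (fun R hR R' hR' => hs' R (Multiset.mem_cons_of_mem hR) R' (Multiset.mem_cons_of_mem hR'))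
        h1 H]
    · exact h

end forced

end Pool.Agent.Helper28.JM
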