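import Pool.Agent.Helper28.JM.Build

/-!
# Adding a column at the bottom of a region: the new state
-/

set_option autoImplicit false

namespace Pool.Agent.Helper28.JM

variable {Λ : Set Pt} {W : Pt → ℝ} {p c N : ℤ} {τ : Bool}

theorem new_rect (lo : ∀ x ∈ Λ, p ≤ x.1 ∧ c ≤ x.2) (P : ∀ j, (p, j) ∈ Λ ↔ c ≤ j ∧ j ≤ c + N)
    {R : Pt × Pt} (hR : R ∈ Mn (Λ ∪ {(p, c - 1), (p + 1, c - 1)})) :
    R ∈ Mn Λ ∨ ∃ j, 1 ≤ j ∧ j ≤ N + 1 ∧ R = ((p, c - 1 + 0), (p + 1, c - 1 + j)) := by
  obtain ⟨⟨x1, y1⟩, ⟨x2, y2⟩⟩ := R
  obtain ⟨h1, h2, h3, h4⟩ := hR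
  simp only at h1 h2 h3 h4
  rcases h4 with h4 | h4
  · left
    refine ⟨h1, h2, ?_, h4⟩
    rcases h3 with h3 | h3
    · exact h3
    · exfalso
      have := (lo _ h4).2
      simp only [Set.mem_insert_iff, Set.mem_singleton_iff, Prod.mk.injEq] at h3 this
      omega
  · simp only [Set.mem_insert_iff, Set.mem_singleton_iff, Prod.mk.injEq] at h4
    have hx1 : p ≤ x1 := by
      rcases h3 with h3 | h3
      · exact (lo _ h3).1
      · simp only [Set.mem_insert_iff, Set.mem_singleton_iff, Prod.mk.injEq] at h3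
        omega
    rcases h4 with h4 | h4
    · omega
    · right
      have hx : x1 = p := by omega
      obtain ⟨e1, e2⟩ := h4
      subst hx e1 e2
      have h5 : (x1, y2) ∈ Λ := by
        rcases h3 with h3 | h3
        · exact h3
        · simp only [Set.mem_insert_iff, Set.mem_singleton_iff, Prod.mk.injEq] at h3
          omega
      have h6 := (P y2).1 h5
      refine ⟨y2 - (c - 1), by omega, by omega, ?_⟩
      simp

theorem va_shift (i : ℤ) : va p (c - 1) τ i = va p c τ (i - 1) := by
  unfold va
  split_ifs <;> (congr 1; ring)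

theorem vb_shift (i : ℤ) : vb p (c - 1) τ i = vb p c τ (i - 1) := by
  unfold vb
  split_ifs <;> (congr 1; ring)

theorem va_snd (i : ℤ) : (va p c τ i).2 = c + i := by
  unfold va
  split_ifs <;> rfl

theorem vb_snd (i : ℤ) : (vb p c τ i).2 = c + i := by
  unfold vb
  split_ifs <;> rfl

theorem va_ne_vb (i j : ℤ) : va p c τ i ≠ vb p c τ j := by
  unfold va vb
  intro h
  have := congrArg Prod.fst h
  cases τ <;> simp at this

theorem ld_subset (hrect : RectP Λ) {R : Pt × Pt} (hR : R ∈ Mn Λ) (W : Pt → ℝ) :
    ∀ x ∈ ld W R, x ∈ Λ := by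
  obtain ⟨⟨x1, y1⟩, ⟨x2, y2⟩⟩ := R
  obtain ⟨h1, h2, h3, h4⟩ := hR
  simp only at h1 h2 h3 h4
  have h5 : (x1, y1) ∈ Λ := hrect x1 x2 y1 y2 x1 y1 h3 h4 le_rfl h1.le le_rfl h2.le
  have h6 : (x2, y2) ∈ Λ := hrect x1 x2 y1 y2 x2 y2 h3 h4 h1.le le_rfl h2.le le_rfl
  intro x hx
  unfold ld at hx
  split_ifs at hx
  · simp only [Multiset.insert_eq_cons, Multiset.mem_cons, Multiset.mem_singleton] at hx
    rcases hx with rfl | rfl <;> assumption
  · simp only [Multiset.insert_eq_cons, Multiset.mem_cons, Multiset.mem_singleton] at hx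
    rcases hx with rfl | rfl <;> assumption

theorem ld_congr (hrect : RectP Λ) {R : Pt × Pt} (hR : R ∈ Mn Λ) {W W' : Pt → ℝ}
    (h : ∀ x ∈ Λ, W' x = W x) : ld W' R = ld W R := by
  obtain ⟨⟨x1, y1⟩, ⟨x2, y2⟩⟩ := R
  obtain ⟨h1, h2, h3, h4⟩ := hR
  simp only at h1 h2 h3 h4
  have h5 : (x1, y1) ∈ Λ := hrect x1 x2 y1 y2 x1 y1 h3 h4 le_rfl h1.le le_rfl h2.le
  have h6 : (x2, y2) ∈ Λ := hrect x1 x2 y1 y2 x2 y2 h3 h4 h1.le le_rfl h2.le le_rfl
  have : IsD W' ((x1, y1), (x2, y2)) ↔ IsD W ((x1, y1), (x2, y2)) := by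
    unfold IsD
    rw [h _ h3, h _ h4, h _ h5, h _ h6]
  unfold ld
  by_cases hd : IsD W ((x1, y1), (x2, y2))
  · rw [if_pos hd, if_pos (this.2 hd)]
  · rw [if_neg hd, if_neg (fun h => hd (this.1 h))]

theorem nu_congr (hrect : RectP Λ) {E : Multiset (Pt × Pt)} (hE : ∀ R ∈ E, R ∈ Mn Λ)
    {W W' : Pt → ℝ} (h : ∀ x ∈ Λ, W' x = W x) : nu W' E = nu W E := by
  unfold nu
  rw [Multiset.map_congr rfl (fun R hR => ld_congr hrect (hE R hR) h)]

theorem gen_of_ne {W : Pt → ℝ} {i j : ℤ}
    (h : W (va p c τ i) - W (vb p c τ i) ≠ W (va p c τ j) - W (vb p c τ j)) :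
    W (p, c + j) + W (p + 1, c + i) ≠ W (p, c + i) + W (p + 1, c + j) := by
  intro e
  apply h
  cases τ
  · simp only [va, vb, Bool.false_eq_true, if_false] at h ⊢
    linarith
  · simp only [va, vb, if_true] at h ⊢
    linarith

theorem cont (hrect : RectP Λ) (h : StF Λ W p c N τ) (hT : Tot Λ W) :
    ∃ W' : Pt → ℝ, (∀ x ∈ Λ, W' x = W x) ∧
      StF (Λ ∪ {(p, c - 1), (p + 1, c - 1)}) W' p (c - 1) (N + 1) τ ∧
      Tot (Λ ∪ {(p, c - 1), (p + 1, c - 1)}) W' ∧
      ∀ R ∈ Mn (Λ ∪ {(p, c - 1), (p + 1, c - 1)}), R ∉ Mn Λ → ∀ x ∈ ld W' R,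
        x.1 + x.2 ≤ p + c + N + (if τ then 0 else 1) := by
  classical
  have hN := h.N1
  set Λ' : Set Pt := Λ ∪ {(p, c - 1), (p + 1, c - 1)} with hΛ'
  set δ : ℝ := ((W (va p c τ 0) - W (vb p c τ 0)) + (W (va p c τ N) - W (vb p c τ N))) / 2 with hδ
  set W' : Pt → ℝ := fun x => if x = va p (c - 1) τ 0 then δ else
    if x = vb p (c - 1) τ 0 then 0 else W x with hW'
  have h0N := h.dtop 0 le_rfl (by omega)
  have hva0 : va p (c - 1) τ 0 ∉ Λ := fun hx => by
    have := (h.lo _ hx).2
    rw [va_snd] at this
    omega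
  have hvb0 : vb p (c - 1) τ 0 ∉ Λ := fun hx => by
    have := (h.lo _ hx).2
    rw [vb_snd] at this
    omega
  have hW0 : ∀ x ∈ Λ, W' x = W x := by
    intro x hx
    simp only [hW']
    rw [if_neg (fun e : x = va p (c - 1) τ 0 => hva0 (e ▸ hx)),
      if_neg (fun e : x = vb p (c - 1) τ 0 => hvb0 (e ▸ hx))]
  have hA0 : W' (va p (c - 1) τ 0) = δ := by simp [hW']
  have hB0 : W' (vb p (c - 1) τ 0) = 0 := by
    have := (va_ne_vb (p := p) (c := c - 1) (τ := τ) 0 0).symm
    simp [hW', this]
  have hsnd : ∀ x : Pt, c ≤ x.2 → W' x = W x := by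
    intro x hx
    simp only [hW']
    rw [if_neg, if_neg]
    · intro e
      rw [e, vb_snd] at hx
      omega
    · intro e
      rw [e, va_snd] at hx
      omega
  have hA : ∀ i, 1 ≤ i → W' (va p (c - 1) τ i) = W (va p c τ (i - 1)) := by
    intro i hi
    rw [hsnd _ (by rw [va_snd]; omega), va_shift]
  have hB : ∀ i, 1 ≤ i → W' (vb p (c - 1) τ i) = W (vb p c τ (i - 1)) := by
    intro i hi
    rw [hsnd _ (by rw [vb_snd]; omega), vb_shift]
  have hdtop : ∀ i, 0 ≤ i → i < N + 1 → W' (va p (c - 1) τ i) - W' (vb p (c - 1) τ i) <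
      W' (va p (c - 1) τ (N + 1)) - W' (vb p (c - 1) τ (N + 1)) := by
    intro i hi1 hi2
    rw [hA (N + 1) (by omega), hB (N + 1) (by omega), add_sub_cancel_right]
    rcases hi1.eq_or_lt with rfl | hi1
    · rw [hA0, hB0]
      linarith
    · rw [hA i (by omega), hB i (by omega)]
      exact h.dtop (i - 1) (by omega) (by omega)
  have hddec : ∀ i j, 0 ≤ i → i < j → j < N + 1 → W' (va p (c - 1) τ j) - W' (vb p (c - 1) τ j) <
      W' (va p (c - 1) τ i) - W' (vb p (c - 1) τ i) := by
    intro i j hi1 hij hj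
    rw [hA j (by omega), hB j (by omega)]
    rcases hi1.eq_or_lt with rfl | hi1
    · rw [hA0, hB0]
      by_cases hj1 : j = 1
      · subst hj1
        rw [sub_self]
        linarith
      · have := h.ddec 0 (j - 1) le_rfl (by omega) (by omega)
        linarith
    · rw [hA i (by omega), hB i (by omega)]
      exact h.ddec (i - 1) (j - 1) (by omega) (by omega) (by omega)
  have hldlt : ∀ j, 1 ≤ j → j ≤ N → ld W' ((p, c - 1 + 0), (p + 1, c - 1 + j)) =
      {va p (c - 1) τ 0, vb p (c - 1) τ j} := fun j h1 h2 =>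
    ld_of_gt (hddec 0 j le_rfl (by omega) (by omega))
  have hldtop : ld W' ((p, c - 1 + 0), (p + 1, c - 1 + (N + 1))) =
      {va p (c - 1) τ (N + 1), vb p (c - 1) τ 0} :=
    ld_of_lt (hdtop 0 le_rfl (by omega))
  have hst : StF Λ' W' p (c - 1) (N + 1) τ := by
    refine ⟨by omega, ?_, ?_, ?_, hdtop, hddec, ?_, ?_⟩
    · rintro x (hx | hx)
      · have := h.lo x hx
        omega
      · rcases hx with rfl | rfl <;> simp
    · intro j
      constructor
      · rintro (hj | hj)
        · have := (h.P j).1 hj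
          omega
        · simp only [Set.mem_insert_iff, Set.mem_singleton_iff, Prod.mk.injEq] at hj
          omega
      · rintro ⟨h1, h2⟩
        by_cases hj : j = c - 1
        · right
          rw [hj]
          simp
        · left
          exact (h.P j).2 ⟨by omega, by omega⟩
    · intro j h1 h2
      by_cases hj : j = c - 1
      · right
        rw [hj]
        simp
      · left
        exact h.Q j (by omega) (by omega)
    · intro R hR i hi1 hi2 hRi
      rcases new_rect h.lo h.P hR with hold | ⟨j, hj1, hj2, rfl⟩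
      · rw [ld_congr hrect hold hW0] at hRi
        have hmem := ld_subset hrect hold W _ hRi
        rcases hi1.eq_or_lt with rfl | hi1
        · exact absurd hmem hva0
        · rw [va_shift] at hRi
          obtain ⟨j, h1, h2, h3⟩ := h.locA R hold (i - 1) (by omega) (by omega) hRi
          refine ⟨j + 1, by omega, by omega, ?_⟩
          rw [h3]
          congr 2 <;> ring
      · by_cases hjN : j ≤ N
        · rw [hldlt j hj1 hjN] at hRi
          simp only [Multiset.insert_eq_cons, Multiset.mem_cons, Multiset.mem_singleton] at hRi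
          rcases hRi with e | e
          · have := congrArg Prod.snd e
            rw [va_snd, va_snd] at this
            have hi0 : i = 0 := by omega
            subst hi0
            exact ⟨j, by omega, by omega, rfl⟩
          · exact absurd e (va_ne_vb i j)
        · have : j = N + 1 := by omega
          subst this
          rw [hldtop] at hRi
          simp only [Multiset.insert_eq_cons, Multiset.mem_cons, Multiset.mem_singleton] at hRi
          rcases hRi with e | e
          · have := congrArg Prod.snd e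
            rw [va_snd, va_snd] at this
            omega
          · exact absurd e (va_ne_vb i 0)
    · intro R hR i hi1 hi2 hRi
      rcases new_rect h.lo h.P hR with hold | ⟨j, hj1, hj2, rfl⟩
      · rw [ld_congr hrect hold hW0] at hRi
        have hmem := ld_subset hrect hold W _ hRi
        rcases hi1.eq_or_lt with rfl | hi1
        · exact absurd hmem hvb0
        · rw [vb_shift] at hRi
          rcases h.locB R hold (i - 1) (by omega) (by omega) hRi with ⟨j, h1, h2, h3⟩ | h3
          · left
            refine ⟨j + 1, by omega, by omega, ?_⟩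
            rw [h3]
            congr 2 <;> ring
          · right
            rw [h3]
            congr 2 <;> ring
      · by_cases hjN : j ≤ N
        · rw [hldlt j hj1 hjN] at hRi
          simp only [Multiset.insert_eq_cons, Multiset.mem_cons, Multiset.mem_singleton] at hRi
          rcases hRi with e | e
          · exact absurd e.symm (va_ne_vb 0 i)
          · have := congrArg Prod.snd e
            rw [vb_snd, vb_snd] at this
            have hij : i = j := by omega
            subst hij
            left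
            exact ⟨0, le_rfl, by omega, rfl⟩
        · have : j = N + 1 := by omega
          subst this
          rw [hldtop] at hRi
          simp only [Multiset.insert_eq_cons, Multiset.mem_cons, Multiset.mem_singleton] at hRi
          rcases hRi with e | e
          · exact absurd e.symm (va_ne_vb (N + 1) i)
          · have := congrArg Prod.snd e
            rw [vb_snd, vb_snd] at this
            have hij : i = 0 := by omega
            subst hij
            right
            rfl
  refine ⟨W', hW0, hst, ⟨?_, ?_⟩, ?_⟩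
  · intro R hR
    rcases new_rect h.lo h.P hR with hold | ⟨j, hj1, hj2, rfl⟩
    · have := hT.gen R hold
      obtain ⟨⟨x1, y1⟩, ⟨x2, y2⟩⟩ := R
      obtain ⟨h1, h2, h3, h4⟩ := hold
      simp only at h1 h2 h3 h4 this ⊢
      have h5 : (x1, y1) ∈ Λ := hrect x1 x2 y1 y2 x1 y1 h3 h4 le_rfl h1.le le_rfl h2.le
      have h6 : (x2, y2) ∈ Λ := hrect x1 x2 y1 y2 x2 y2 h3 h4 h1.le le_rfl h2.le le_rfl
      rw [hW0 _ h3, hW0 _ h4, hW0 _ h5, hW0 _ h6]
      exact this
    · apply gen_of_ne (τ := τ)
      by_cases hjN : j ≤ N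
      · exact (hddec 0 j le_rfl (by omega) (by omega)).ne'
      · have : j = N + 1 := by omega
        subst this
        exact (hdtop 0 le_rfl (by omega)).ne
  · intro E E' hE hE' hs hs' hnu
    refine uniq_aux (Multiset.card E) E E' rfl hE hE' hs hs' hnu ?_
    intro F F' hF hF' hsF hsF' hnF
    by_cases hx : va p (c - 1) τ 0 ∈ nu W' F ∨ vb p (c - 1) τ 0 ∈ nu W' F
    · left
      exact forced hst (by omega) F F' hF hF' hsF hsF' hnF hx
    · right
      push Not at hx
      have key : ∀ G : Multiset (Pt × Pt), (∀ R ∈ G, R ∈ Mn Λ') → nu W' G = nu W' F →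
          ∀ R ∈ G, R ∈ Mn Λ := by
        intro G hG hnG R hR
        rcases new_rect h.lo h.P (hG R hR) with hold | ⟨j, hj1, hj2, rfl⟩
        · exact hold
        · exfalso
          by_cases hjN : j ≤ N
          · apply hx.1
            rw [← hnG, mem_nu]
            refine ⟨_, hR, ?_⟩
            rw [hldlt j hj1 hjN]
            simp
          · have : j = N + 1 := by omega
            subst this
            apply hx.2
            rw [← hnG, mem_nu]
            refine ⟨_, hR, ?_⟩
            rw [hldtop]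
            simp
      have h1 := key F hF rfl
      have h2 := key F' hF' hnF.symm
      rw [nu_congr hrect h1 hW0, nu_congr hrect h2 hW0] at hnF
      exact hT.uniq F F' h1 h2 hsF hsF' hnF
  · intro R hR hnot x hx
    rcases new_rect h.lo h.P hR with hold | ⟨j, hj1, hj2, rfl⟩
    · exact absurd hold hnot
    · by_cases hjN : j ≤ N
      · rw [hldlt j hj1 hjN] at hx
        simp only [Multiset.insert_eq_cons, Multiset.mem_cons, Multiset.mem_singleton] at hx
        rcases hx with rfl | rfl
        · unfold va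
          cases τ <;> simp <;> omega
        · unfold vb
          cases τ <;> simp <;> omega
      · have : j = N + 1 := by omega
        subst this
        rw [hldtop] at hx
        simp only [Multiset.insert_eq_cons, Multiset.mem_cons, Multiset.mem_singleton] at hx
        rcases hx with rfl | rfl
        · unfold va
          cases τ <;> simp <;> omega
        · unfold vb
          cases τ <;> simp <;> omega

end Pool.Agent.Helper28.JM
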