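import Pool.Agent.Helper28.JM.Build2
import Pool.Agent.Helper52.JMSym

/-!
# Building the region downwards
-/

set_option autoImplicit false

namespace Pool.Agent.Helper28.JM

open Pool.Agent.Helper52.JMSym

theorem reint {Λ : Set Pt} {W : Pt → ℝ} {p c N : ℤ} {τ : Bool} (h : StF Λ W p c N τ)
    (hN : 2 ≤ N) (hline : ∀ x ∈ Λ, x.2 = c → x.1 ≤ p + 1) :
    StF (swS Λ) (swW W) c p 1 (!τ) := by
  have h00 : (p, c) ∈ Λ := (h.P c).2 ⟨le_rfl, by omega⟩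
  have h01 : (p, c + 1) ∈ Λ := (h.P (c + 1)).2 ⟨by omega, by omega⟩
  have h10 : (p + 1, c) ∈ Λ := h.Q c le_rfl (by omega)
  have h11 : (p + 1, c + 1) ∈ Λ := h.Q (c + 1) (by omega) (by omega)
  refine ⟨le_rfl, ?_, ?_, ?_, ?_, ?_, ?_, ?_⟩
  · intro x hx
    have := h.lo _ hx
    exact ⟨this.2, this.1⟩
  · intro j
    constructor
    · intro hj
      exact ⟨(h.lo _ hj).1, hline _ hj rfl⟩
    · rintro ⟨h1, h2⟩
      rcases h1.eq_or_lt with rfl | h1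
      · exact h00
      · have : j = p + 1 := by omega
        rw [this]
        exact h10
  · intro j h1 h2
    rcases h1.eq_or_lt with rfl | h1
    · exact h01
    · have : j = p + 1 := by omega
      rw [this]
      exact h11
  · intro i h1 h2
    have : i = 0 := by omega
    subst this
    have := h.ddec 0 1 le_rfl (by omega) (by omega)
    cases τ
    · simp only [va, vb, swW, Bool.not_false, Bool.false_eq_true, if_false, if_true,
        add_zero] at this ⊢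
      linarith
    · simp only [va, vb, swW, Bool.not_true, Bool.false_eq_true, if_false, if_true,
        add_zero] at this ⊢
      linarith
  · intro i j h1 h2 h3
    omega
  · intro R hR i h1 h2
    omega
  · intro R hR i h1 h2
    omega

/-- The statement carried through the construction. -/
def Cl (Λ : Set Pt) (w0 : Pt) (W0 : Pt → ℝ) (K : ℤ) (w : Pt) : Prop :=
  ∃ W : Pt → ℝ, (∀ x ∈ Λ ∩ Set.Ici w0, W x = W0 x) ∧ Tot (Λ ∩ Set.Ici w) W ∧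
    (∃ N τ, StF (Λ ∩ Set.Ici w) W w.1 w.2 N τ ∧ Bd K w.1 w.2 N τ) ∧
    (∃ N τ, StF (swS (Λ ∩ Set.Ici w)) (swW W) w.2 w.1 N τ ∧ Bd K w.2 w.1 N τ) ∧
    ∀ R ∈ Mn (Λ ∩ Set.Ici w), R ∉ Mn (Λ ∩ Set.Ici w0) → ∀ x ∈ ld W R, x.1 + x.2 ≤ K

theorem swS_inter (Λ : Set Pt) (w : Pt) :
    swS (Λ ∩ Set.Ici w) = swS Λ ∩ Set.Ici (w.2, w.1) := by
  ext x
  constructor
  · rintro ⟨h1, h2⟩
    exact ⟨h1, ⟨h2.2, h2.1⟩⟩
  · rintro ⟨h1, h2⟩
    exact ⟨h1, ⟨h2.2, h2.1⟩⟩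

theorem Cl.sw {Λ : Set Pt} {w0 : Pt} {W0 : Pt → ℝ} {K : ℤ} {w : Pt} (h : Cl Λ w0 W0 K w) :
    Cl (swS Λ) (w0.2, w0.1) (swW W0) K (w.2, w.1) := by
  obtain ⟨W, h1, h2, h3, h4, h5⟩ := h
  refine ⟨swW W, ?_, ?_, ?_, ?_, ?_⟩
  · rw [← swS_inter]
    intro x hx
    exact h1 _ hx
  · rw [← swS_inter]
    exact tot_sw h2
  · rw [← swS_inter]
    exact h4
  · rw [← swS_inter]
    exact h3
  · rw [← swS_inter, ← swS_inter]
    intro R hR hnot x hx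
    have hR' : swR R ∈ Mn (Λ ∩ Set.Ici w) := mem_Mn_sw'.2 hR
    have hnot' : swR R ∉ Mn (Λ ∩ Set.Ici w0) := fun hc => hnot (mem_Mn_sw'.1 hc)
    have hx' : (x.2, x.1) ∈ ld W (swR R) := by
      have e := ld_sw W (swR R)
      rw [swR_swR] at e
      rw [e, Multiset.mem_map] at hx
      obtain ⟨y, hy, rfl⟩ := hx
      exact hy
    have := h5 _ hR' hnot' _ hx'
    simp only at this
    linarith

theorem rectP_inter {Λ : Set Pt} {bot top : Pt} (hR : Reg Λ bot top) (w : Pt) :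
    RectP (Λ ∩ Set.Ici w) := by
  intro i i' j j' s t h1 h2 h3 h4 h5 h6
  refine ⟨hR.rect i i' j j' s t h1.1 h2.1 h3 h4 h5 h6, ?_⟩
  have a1 := h1.2
  have a2 := h2.2
  exact ⟨a1.1.trans h3, a2.2.trans h5⟩

theorem stepF {Λ : Set Pt} {bot top : Pt} (hR : Reg Λ bot top) {w0 : Pt} {W0 : Pt → ℝ} {K : ℤ}
    {w : Pt} (hw0 : w ≤ w0)
    (h3 : ¬ ((w.1 + 1, w.2) ∈ Λ ∧ (w.1, w.2 + 1) ∈ Λ ∧ (w.1 + 2, w.2 - 1) ∈ Λ))
    (hz : (w.1 + 1, w.2 - 1) ∈ Λ) (hwm : w ∈ Λ) (h : Cl Λ w0 W0 K w) :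
    (w.1, w.2 - 1) ∈ Λ ∧ Cl Λ w0 W0 K (w.1, w.2 - 1) := by
  obtain ⟨W, h1, h2, ⟨N, τ, hF, hBd⟩, -, h5⟩ := h
  obtain ⟨p, c⟩ := w
  simp only at h3 hz hF hBd ⊢
  have hN := hF.N1
  have hw' : (p, c - 1) ∈ Λ :=
    hR.rect p (p + 1) (c - 1) c p (c - 1) hwm hz le_rfl (by omega) le_rfl (by omega)
  have h01 : (p, c + 1) ∈ Λ := ((hF.P (c + 1)).2 ⟨by omega, by omega⟩).1
  have h10 : (p + 1, c) ∈ Λ := (hF.Q c le_rfl (by omega)).1
  have hset : Λ ∩ Set.Ici (p, c - 1) = (Λ ∩ Set.Ici (p, c)) ∪ {(p, c - 1), (p + 1, c - 1)} := by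
    ext ⟨x, y⟩
    constructor
    · rintro ⟨hx, hxy⟩
      have e1 : p ≤ x := hxy.1
      have e2 : c - 1 ≤ y := hxy.2
      by_cases hy : c ≤ y
      · left
        exact ⟨hx, ⟨e1, hy⟩⟩
      · right
        have hy' : y = c - 1 := by omega
        subst hy'
        by_cases hx2 : p + 2 ≤ x
        · exfalso
          apply h3
          refine ⟨h10, h01, ?_⟩
          exact hR.rect p x (c - 1) (c - 1) (p + 2) (c - 1) hw' hx (by omega) hx2 le_rfl le_rfl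
        · simp only [Set.mem_insert_iff, Set.mem_singleton_iff, Prod.mk.injEq, and_true]
          omega
    · rintro (⟨hx, hxy⟩ | hx)
      · have e1 : p ≤ x := hxy.1
        have e2 : c ≤ y := hxy.2
        exact ⟨hx, ⟨e1, by simp only; omega⟩⟩
      · simp only [Set.mem_insert_iff, Set.mem_singleton_iff, Prod.mk.injEq] at hx
        rcases hx with ⟨rfl, rfl⟩ | ⟨rfl, rfl⟩
        · exact ⟨hw', ⟨le_rfl, le_rfl⟩⟩
        · exact ⟨hz, ⟨by simp, le_rfl⟩⟩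
  refine ⟨hw', ?_⟩
  obtain ⟨W', hW', hF', hT', hlev⟩ := cont (rectP_inter hR (p, c)) hF h2
  rw [← hset] at hF' hT' hlev
  refine ⟨W', ?_, hT', ⟨N + 1, τ, hF', ?_⟩, ⟨1, !τ, ?_, ?_⟩, ?_⟩
  · intro x hx
    rw [hW' x ⟨hx.1, hw0.trans hx.2⟩]
    exact h1 x hx
  · unfold Bd at hBd ⊢
    simp only
    cases τ <;> simp at hBd ⊢ <;> omega
  · apply reint hF' (by omega)
    intro x hx hx2
    rw [hset] at hx
    rcases hx with hx | hx
    · have : c ≤ x.2 := hx.2.2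
      omega
    · simp only [Set.mem_insert_iff, Set.mem_singleton_iff] at hx
      rcases hx with rfl | rfl <;> simp
  · unfold Bd at hBd ⊢
    simp only
    cases τ <;> simp at hBd ⊢ <;> omega
  · intro R hRm hnot x hx
    by_cases hold : R ∈ Mn (Λ ∩ Set.Ici (p, c))
    · rw [ld_congr (rectP_inter hR (p, c)) hold hW'] at hx
      exact h5 R hold hnot x hx
    · have := hlev R hRm hold x hx
      unfold Bd at hBd
      linarith

theorem step {Λ : Set Pt} {bot top : Pt} (hR : Reg Λ bot top) {w0 : Pt} {W0 : Pt → ℝ} {K : ℤ}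
    (hthin : ∀ x ∈ Λ, x.1 + x.2 ≤ w0.1 + w0.2 + 1 →
      ¬ ((x.1 + 1, x.2 - 1) ∈ Λ ∧ (x.1 + 2, x.2 - 2) ∈ Λ))
    {w : Pt} (hw0 : w ≤ w0) (hwm : w ∈ Λ) (hne : w ≠ bot) (h : Cl Λ w0 W0 K w) :
    ∃ w' ∈ Λ, w' ≤ w ∧ w'.1 + w'.2 = w.1 + w.2 - 1 ∧ Cl Λ w0 W0 K w' := by
  have hlev : w.1 + w.2 ≤ w0.1 + w0.2 := by
    have h1 := hw0.1
    have h2 := hw0.2
    omega
  have hh := h
  obtain ⟨W, -, -, ⟨N, τ, hF, -⟩, -, -⟩ := hh
  have hN := hF.N1
  have h01 : (w.1, w.2 + 1) ∈ Λ := ((hF.P (w.2 + 1)).2 ⟨by omega, by omega⟩).1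
  have h10 : (w.1 + 1, w.2) ∈ Λ := (hF.Q w.2 le_rfl (by omega)).1
  have hnt : w ≠ top := by
    rintro rfl
    have := (hR.le_top _ h01).2
    simp only at this
    omega
  rcases hR.simple w hwm hne hnt with hz | hz
  · obtain ⟨h1, h2⟩ := stepF hR hw0 (fun h3 => by
      refine hthin (w.1, w.2 + 1) h01 (by simp only; omega) ⟨?_, ?_⟩
      · simpa using h10
      · have := h3.2.2
        simp only
        convert this using 2
        ring) hz hwm h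
    exact ⟨_, h1, ⟨le_rfl, by simp⟩, by simp only; ring, h2⟩
  · have hR' := reg_sw hR
    obtain ⟨h1, h2⟩ := stepF (w := (w.2, w.1)) (w0 := (w0.2, w0.1)) (W0 := swW W0) (K := K) hR'
      ⟨hw0.2, hw0.1⟩ (fun h3 => by
      have h4 : (w.1 - 1, w.2 + 2) ∈ Λ := h3.2.2
      refine hthin (w.1 - 1, w.2 + 2) h4 (by simp only; omega) ⟨?_, ?_⟩
      · simp only
        convert h01 using 2 <;> ring
      · simp only
        convert h10 using 2 <;> ring) hz hwm h.sw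
    refine ⟨(w.1 - 1, w.2), h1, ⟨by simp, le_rfl⟩, by simp only; ring, ?_⟩
    exact h2.sw

theorem build {Λ : Set Pt} {bot top : Pt} (hR : Reg Λ bot top) {w0 : Pt} {W0 : Pt → ℝ} {K : ℤ}
    (hw0 : w0 ∈ Λ)
    (hthin : ∀ x ∈ Λ, x.1 + x.2 ≤ w0.1 + w0.2 + 1 →
      ¬ ((x.1 + 1, x.2 - 1) ∈ Λ ∧ (x.1 + 2, x.2 - 2) ∈ Λ))
    (h : Cl Λ w0 W0 K w0) :
    ∃ W : Pt → ℝ, (∀ x ∈ Λ ∩ Set.Ici w0, W x = W0 x) ∧ Tot Λ W ∧
      ∀ R ∈ Mn Λ, R ∉ Mn (Λ ∩ Set.Ici w0) → ∀ x ∈ ld W R, x.1 + x.2 ≤ K := by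
  have key : ∀ n : ℕ, ∀ w ∈ Λ, w ≤ w0 → w.1 + w.2 - (bot.1 + bot.2) = n → Cl Λ w0 W0 K w →
      Cl Λ w0 W0 K bot := by
    intro n
    induction n with
    | zero =>
      intro w hw hw0 hn hcl
      have hb := hR.bot_le w hw
      have h1 := hb.1
      have h2 := hb.2
      have : w = bot := by
        ext
        · push_cast at hn; omega
        · push_cast at hn; omega
      rwa [this] at hcl
    | succ n ih =>
      intro w hw hw0 hn hcl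
      have hne : w ≠ bot := by
        rintro rfl
        push_cast at hn
        omega
      obtain ⟨w', hw', hle, hlev, hcl'⟩ := step hR hthin hw0 hw hne hcl
      exact ih w' hw' (hle.trans hw0) (by push_cast at hn; omega) hcl'
  have hb := hR.bot_le w0 hw0
  have h1 := hb.1
  have h2 := hb.2
  obtain ⟨W, a1, a2, -, -, a5⟩ := key (w0.1 + w0.2 - (bot.1 + bot.2)).toNat w0 hw0 le_rfl
    (by rw [Int.toNat_of_nonneg]; omega) h
  have hset : Λ ∩ Set.Ici bot = Λ := by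
    ext x
    exact ⟨fun hx => hx.1, fun hx => ⟨hx, hR.bot_le x hx⟩⟩
  rw [hset] at a2 a5
  exact ⟨W, a1, a2, a5⟩

end Pool.Agent.Helper28.JM
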