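import Pool.Agent.Helper28.JM.Defs

/-!
# Straightening and leading monomials

If there is a weight such that distinct standard monomials have distinct leading monomials, then
the relations between the rectangles of the region are generated by quadrics.
-/

set_option autoImplicit false

namespace Pool.Agent.Helper28.JM

open MvPolynomial

/-- The comparable diagonal of the rectangle is the heavier one. -/
def IsD (W : Pt → ℝ) (R : Pt × Pt) : Prop :=
  W (R.1.1, R.2.2) + W (R.2.1, R.1.2) < W R.1 + W R.2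

open Classical in
/-- The two end points of the heavier diagonal. -/
noncomputable def ld (W : Pt → ℝ) (R : Pt × Pt) : Multiset Pt :=
  if IsD W R then {R.1, R.2} else {(R.1.1, R.2.2), (R.2.1, R.1.2)}

/-- The content of a multiset of rectangles. -/
noncomputable def nu (W : Pt → ℝ) (E : Multiset (Pt × Pt)) : Multiset Pt := (E.map (ld W)).sum

/-- Crossing rectangles in a common vertical strip. -/
def CrV (R R' : Pt × Pt) : Prop :=
  R.1.1 = R'.1.1 ∧ R.2.1 = R'.2.1 ∧ R.2.1 = R.1.1 + 1 ∧ R.1.2 < R'.1.2 ∧ R'.1.2 < R.2.2 ∧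
    R.2.2 < R'.2.2

/-- Crossing rectangles in a common horizontal strip. -/
def CrH (R R' : Pt × Pt) : Prop :=
  R.1.2 = R'.1.2 ∧ R.2.2 = R'.2.2 ∧ R.2.2 = R.1.2 + 1 ∧ R.1.1 < R'.1.1 ∧ R'.1.1 < R.2.1 ∧
    R.2.1 < R'.2.1

/-- Standard multisets of rectangles: no two of them cross. -/
def Std (E : Multiset (Pt × Pt)) : Prop := ∀ R ∈ E, ∀ R' ∈ E, ¬ CrV R R' ∧ ¬ CrH R R'

/-- The weight is generic and distinct standard multisets have distinct contents. -/
structure Tot (Λ : Set Pt) (W : Pt → ℝ) : Prop where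
  gen : ∀ R ∈ Mn Λ, W (R.1.1, R.2.2) + W (R.2.1, R.1.2) ≠ W R.1 + W R.2
  uniq : ∀ E E' : Multiset (Pt × Pt), (∀ R ∈ E, R ∈ Mn Λ) → (∀ R ∈ E', R ∈ Mn Λ) → Std E →
    Std E' → nu W E = nu W E' → E = E'

section lead

variable {K : Type*} [Field K] (W : Pt → ℝ)

/-- The weight of a monomial. -/
noncomputable def wt : (Pt →₀ ℕ) →+ ℝ :=
  Finsupp.liftAddHom fun x => (smulAddHom ℕ ℝ).flip (W x)

theorem wt_single (x : Pt) : wt W (Finsupp.single x 1) = W x := by
  simp [wt]

/-- `m` is the leading monomial of `F`. -/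
def IsLead (F : MvPolynomial Pt K) (m : Pt →₀ ℕ) : Prop :=
  coeff m F ≠ 0 ∧ ∀ m', coeff m' F ≠ 0 → m' ≠ m → wt W m' < wt W m

theorem IsLead.le {F : MvPolynomial Pt K} {m : Pt →₀ ℕ} (h : IsLead W F m) {m' : Pt →₀ ℕ}
    (hm' : coeff m' F ≠ 0) : wt W m' ≤ wt W m := by
  by_cases e : m' = m
  · rw [e]
  · exact (h.2 m' hm' e).le

theorem IsLead.one : IsLead W (1 : MvPolynomial Pt K) 0 := by
  refine ⟨by simp, fun m' hm' hne => ?_⟩
  rw [coeff_one] at hm'
  by_contra _
  exact hm' (if_neg (fun h => hne h.symm))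

theorem IsLead.mul {F G : MvPolynomial Pt K} {m n : Pt →₀ ℕ} (hF : IsLead W F m)
    (hG : IsLead W G n) : IsLead W (F * G) (m + n) := by
  classical
  have key : ∀ a b : Pt →₀ ℕ, coeff a F ≠ 0 → coeff b G ≠ 0 → wt W m + wt W n ≤ wt W (a + b) →
      a = m ∧ b = n := by
    intro a b ha hb hab
    have h1 := hF.le W ha
    have h2 := hG.le W hb
    rw [map_add] at hab
    constructor
    · by_contra hne
      have := hF.2 a ha hne
      linarith
    · by_contra hne
      have := hG.2 b hb hne
      linarith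
  constructor
  · rw [coeff_mul, Finset.sum_eq_single (m, n)]
    · exact mul_ne_zero hF.1 hG.1
    · rintro ⟨a, b⟩ hab hne
      by_contra h0
      rw [Finset.HasAntidiagonal.mem_antidiagonal] at hab
      have ha : coeff a F ≠ 0 := fun h => h0 (by simp [h])
      have hb : coeff b G ≠ 0 := fun h => h0 (by simp [h])
      obtain ⟨h1, h2⟩ := key a b ha hb (by simp only at hab; rw [hab, map_add])
      exact hne (by rw [h1, h2])
    · intro h
      exact absurd (by rw [Finset.HasAntidiagonal.mem_antidiagonal]) h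
  · intro m' hm' hne
    rw [coeff_mul] at hm'
    obtain ⟨⟨a, b⟩, hab, h0⟩ := Finset.exists_ne_zero_of_sum_ne_zero hm'
    rw [Finset.HasAntidiagonal.mem_antidiagonal] at hab
    simp only at hab h0
    have ha : coeff a F ≠ 0 := fun h => h0 (by simp [h])
    have hb : coeff b G ≠ 0 := fun h => h0 (by simp [h])
    by_contra hlt
    rw [not_lt, map_add, ← hab] at hlt
    obtain ⟨h1, h2⟩ := key a b ha hb hlt
    exact hne (by rw [← hab, h1, h2])

/-- A product of two variables is a monomial. -/
theorem X_mul_X (p q : Pt) : (X p * X q : MvPolynomial Pt K) =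
    monomial (Multiset.toFinsupp {p, q}) 1 := by
  have h : (Multiset.toFinsupp {p, q} : Pt →₀ ℕ) = Finsupp.single p 1 + Finsupp.single q 1 := by
    have : ({p, q} : Multiset Pt) = {p} + {q} := rfl
    rw [this, map_add, Multiset.toFinsupp_singleton, Multiset.toFinsupp_singleton]
  rw [h, X, X, monomial_mul, one_mul]

theorem wt_pair (p q : Pt) : wt W (Multiset.toFinsupp {p, q}) = W p + W q := by
  have h : (Multiset.toFinsupp {p, q} : Pt →₀ ℕ) = Finsupp.single p 1 + Finsupp.single q 1 := by
    have : ({p, q} : Multiset Pt) = {p} + {q} := rfl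
    rw [this, map_add, Multiset.toFinsupp_singleton, Multiset.toFinsupp_singleton]
  rw [h, map_add, wt_single, wt_single]

theorem isLead_fR (R : Pt × Pt)
    (h : W (R.1.1, R.2.2) + W (R.2.1, R.1.2) ≠ W R.1 + W R.2) :
    IsLead W (fR K R) (Multiset.toFinsupp (ld W R)) := by
  classical
  set A : Pt →₀ ℕ := Multiset.toFinsupp {(R.1.1, R.2.2), (R.2.1, R.1.2)} with hA
  set D : Pt →₀ ℕ := Multiset.toFinsupp {R.1, R.2} with hD
  have hf : fR K R = monomial A 1 - monomial D 1 := by
    rw [fR, X_mul_X, X_mul_X]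
  have hAD : A ≠ D := by
    intro e
    apply h
    rw [← wt_pair W, ← wt_pair W, ← hA, ← hD, e]
  have hwA : wt W A = W (R.1.1, R.2.2) + W (R.2.1, R.1.2) := wt_pair W _ _
  have hwD : wt W D = W R.1 + W R.2 := wt_pair W _ _
  have hc : ∀ m, coeff m (fR K R) = (if A = m then 1 else 0) - (if D = m then 1 else 0) := by
    intro m
    rw [hf, coeff_sub, coeff_monomial, coeff_monomial]
  unfold ld
  split_ifs with hd
  · refine ⟨?_, fun m' hm' hne => ?_⟩
    · rw [hc, if_neg hAD, if_pos hD.symm]
      simp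
    · rw [hc] at hm'
      have : A = m' := by
        by_contra hA'
        rw [if_neg hA', if_neg (fun e => hne (e.symm.trans hD))] at hm'
        exact hm' (sub_zero 0)
      rw [← this, ← hD, hwA, hwD]
      exact hd
  · refine ⟨?_, fun m' hm' hne => ?_⟩
    · rw [hc, if_pos hA.symm, if_neg (fun e => hAD (e.trans hA.symm).symm)]
      simp
    · rw [hc] at hm'
      have : D = m' := by
        by_contra hD'
        rw [if_neg hD', if_neg (fun e => hne (e.symm.trans hA))] at hm'
        exact hm' (sub_zero 0)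
      rw [← this, ← hA, hwA, hwD]
      exact lt_of_le_of_ne (not_lt.1 hd) h.symm

theorem isLead_prod (Λ : Set Pt) (hgen : ∀ R ∈ Mn Λ, W (R.1.1, R.2.2) + W (R.2.1, R.1.2) ≠
    W R.1 + W R.2) (E : Multiset (Pt × Pt)) (hE : ∀ R ∈ E, R ∈ Mn Λ) :
    IsLead W ((E.map (fR K)).prod) (Multiset.toFinsupp (nu W E)) := by
  induction E using Multiset.induction_on with
  | empty => simpa [nu] using IsLead.one (K := K) W
  | cons R E ih =>
    have h1 := isLead_fR (K := K) W R (hgen R (hE R (Multiset.mem_cons_self _ _)))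
    have h2 := ih (fun R' hR' => hE R' (Multiset.mem_cons_of_mem hR'))
    have := h1.mul W h2
    rw [Multiset.map_cons, Multiset.prod_cons, nu, Multiset.map_cons, Multiset.sum_cons, map_add]
    exact this

theorem phi_monomial (s : (Pt × Pt) →₀ ℕ) :
    phi K (monomial s 1) = ((Finsupp.toMultiset s).map (fR K)).prod := by
  rw [phi, aeval_monomial, map_one, one_mul, Finsupp.toMultiset_map, Finsupp.prod,
    Finsupp.prod_toMultiset, Finsupp.prod_mapDomain_index]
  · rfl
  · intro b; simp
  · intro b m n; exact pow_add _ _ _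

/-- Linear independence of the standard monomials in the rectangles. -/
theorem std_indep {Λ : Set Pt} (hT : Tot Λ W) (Q : MvPolynomial (Pt × Pt) K)
    (hQ : ∀ s ∈ Q.support, (∀ R ∈ s.support, R ∈ Mn Λ) ∧ Std (Finsupp.toMultiset s))
    (h0 : phi K Q = 0) : Q = 0 := by
  classical
  by_contra hne
  have hnonempty : Q.support.Nonempty := by
    rwa [Finset.nonempty_iff_ne_empty, Ne, MvPolynomial.support_eq_empty]
  obtain ⟨t, htm, hmax⟩ := Q.support.exists_max_image
    (fun s => wt W (Multiset.toFinsupp (nu W (Finsupp.toMultiset s)))) hnonempty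
  have hmem : ∀ s ∈ Q.support, ∀ R ∈ Finsupp.toMultiset s, R ∈ Mn Λ := by
    intro s hs R hR
    rw [Finsupp.mem_toMultiset] at hR
    exact (hQ s hs).1 R hR
  set μ : Pt →₀ ℕ := Multiset.toFinsupp (nu W (Finsupp.toMultiset t)) with hμ
  have hsum : coeff μ (phi K Q) = ∑ s ∈ Q.support, coeff s Q * coeff μ (phi K (monomial s 1)) := by
    conv_lhs => rw [Q.as_sum, map_sum]
    rw [coeff_sum]
    refine Finset.sum_congr rfl fun s _ => ?_
    have : (monomial s (coeff s Q) : MvPolynomial (Pt × Pt) K) = coeff s Q • monomial s 1 := by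
      rw [smul_monomial, smul_eq_mul, mul_one]
    rw [this, map_smul, coeff_smul, smul_eq_mul]
  rw [h0, coeff_zero, Finset.sum_eq_single t] at hsum
  · have hl := isLead_prod (K := K) W Λ hT.gen _ (hmem t htm)
    rw [← phi_monomial] at hl
    exact (mul_ne_zero (mem_support_iff.1 htm) hl.1) hsum.symm
  · intro s hs hst
    by_contra hc
    have hc' : coeff μ (phi K (monomial s 1)) ≠ 0 := fun h => hc (by rw [h, mul_zero])
    have hl := isLead_prod (K := K) W Λ hT.gen _ (hmem s hs)
    rw [← phi_monomial] at hl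
    by_cases e : μ = Multiset.toFinsupp (nu W (Finsupp.toMultiset s))
    · have e' : nu W (Finsupp.toMultiset t) = nu W (Finsupp.toMultiset s) := by
        apply Multiset.toFinsupp.injective
        rw [← hμ, e]
      have h3 := hT.uniq _ _ (hmem t htm) (hmem s hs) (hQ t htm).2 (hQ s hs).2 e'
      apply hst
      rw [← Finsupp.toMultiset_toFinsupp s, ← h3, Finsupp.toMultiset_toFinsupp]
    · have h1 := hl.2 μ hc' e
      have h2 : wt W (Multiset.toFinsupp (nu W (Finsupp.toMultiset s))) ≤ wt W μ := hmax s hs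
      exact absurd (lt_of_lt_of_le h1 h2) (lt_irrefl _)
  · intro h
    exact absurd htm h

end lead

end Pool.Agent.Helper28.JM
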