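import Pool.Agent.Helper28.JM.Crit

/-!
# Straightening
-/

set_option autoImplicit false

namespace Pool.Agent.Helper28.JM

open MvPolynomial

/-- The area of a rectangle. -/
def area (R : Pt × Pt) : ℤ := (R.2.1 - R.1.1) * (R.2.2 - R.1.2)

/-- The weight used for the termination of the straightening. -/
def om (M : ℤ) (R : Pt × Pt) : ℕ := (area R * (M - area R)).toNat

theorem Reg.area_pos {Λ : Set Pt} {R : Pt × Pt} (hR : R ∈ Mn Λ) : 0 < area R := by
  obtain ⟨h1, h2, -, -⟩ := hR
  exact mul_pos (by linarith) (by linarith)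

theorem Reg.area_lt {Λ : Set Pt} {bot top : Pt} (h : Reg Λ bot top) {R : Pt × Pt}
    (hR : R ∈ Mn Λ) : area R < (top.1 - bot.1) * (top.2 - bot.2) + 1 := by
  obtain ⟨h1, h2, h3, h4⟩ := hR
  have a1 := h.bot_le _ h3
  have a2 := h.bot_le _ h4
  have a3 := h.le_top _ h3
  have a4 := h.le_top _ h4
  have : area R ≤ (top.1 - bot.1) * (top.2 - bot.2) := by
    unfold area
    have b1 : R.2.1 - R.1.1 ≤ top.1 - bot.1 := by
      have := a1.1; have := a4.1; simp at *; linarith
    have b2 : R.2.2 - R.1.2 ≤ top.2 - bot.2 := by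
      have := a2.2; have := a3.2; simp at *; linarith
    exact mul_le_mul b1 b2 (by linarith) (by linarith)
  linarith

theorem om_cast {Λ : Set Pt} {bot top : Pt} (h : Reg Λ bot top) {R : Pt × Pt}
    (hR : R ∈ Mn Λ) : (om ((top.1 - bot.1) * (top.2 - bot.2) + 1) R : ℤ) =
      area R * ((top.1 - bot.1) * (top.2 - bot.2) + 1 - area R) := by
  unfold om
  rw [Int.toNat_of_nonneg]
  have h1 := Reg.area_pos hR
  have h2 := h.area_lt hR
  exact mul_nonneg h1.le (by linarith)

theorem strip_om {M a b c : ℤ} (ha : 0 < a) (hb : 0 < b) (hc : 0 < c) (hM : a + b + c < M) :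
    a * (M - a) + c * (M - c) < (a + b) * (M - (a + b)) + (b + c) * (M - (b + c)) ∧
    (a + b + c) * (M - (a + b + c)) + b * (M - b) <
      (a + b) * (M - (a + b)) + (b + c) * (M - (b + c)) := by
  have h1 : 0 < b * (M - (a + b + c)) := mul_pos hb (by linarith)
  have h2 : 0 < a * c := mul_pos ha hc
  constructor <;> nlinarith

theorem exists_quad (K : Type*) [Field K] {Λ : Set Pt} {bot top : Pt} (h : Reg Λ bot top)
    {R R' : Pt × Pt} (hR : R ∈ Mn Λ) (hR' : R' ∈ Mn Λ) (hc : CrV R R' ∨ CrH R R') :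
    ∃ R1 ∈ Mn Λ, ∃ R2 ∈ Mn Λ, ∃ R3 ∈ Mn Λ, ∃ R4 ∈ Mn Λ,
      phi K (X R * X R' - X R1 * X R2 - X R3 * X R4) = 0 ∧
      om ((top.1 - bot.1) * (top.2 - bot.2) + 1) R1 +
        om ((top.1 - bot.1) * (top.2 - bot.2) + 1) R2 <
      om ((top.1 - bot.1) * (top.2 - bot.2) + 1) R +
        om ((top.1 - bot.1) * (top.2 - bot.2) + 1) R' ∧
      om ((top.1 - bot.1) * (top.2 - bot.2) + 1) R3 +
        om ((top.1 - bot.1) * (top.2 - bot.2) + 1) R4 <
      om ((top.1 - bot.1) * (top.2 - bot.2) + 1) R +
        om ((top.1 - bot.1) * (top.2 - bot.2) + 1) R' := by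
  obtain ⟨⟨p, j1⟩, ⟨p', j3⟩⟩ := R
  obtain ⟨⟨q, j2⟩, ⟨q', j4⟩⟩ := R'
  have hR0 := hR
  have hR0' := hR'
  obtain ⟨-, -, hR3, hR4⟩ := hR
  obtain ⟨-, -, hR3', hR4'⟩ := hR'
  simp only at hR3 hR4 hR3' hR4'
  rcases hc with ⟨e1, e2, e3, l1, l2, l3⟩ | ⟨e1, e2, e3, l1, l2, l3⟩
  · simp only at e1 e2 e3 l1 l2 l3
    subst e1 e2 e3
    have m12 : ((p, j1), (p + 1, j2)) ∈ Mn Λ :=
      ⟨by simp, l1, h.rect p (p + 1) j1 j3 p j2 hR3 hR4 le_rfl (by simp) l1.le l2.le, hR4⟩
    have m34 : ((p, j3), (p + 1, j4)) ∈ Mn Λ :=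
      ⟨by simp, l3, hR3', h.rect p (p + 1) j2 j4 (p + 1) j3 hR3' hR4' (by simp) le_rfl l2.le l3.le⟩
    have m14 : ((p, j1), (p + 1, j4)) ∈ Mn Λ := ⟨by simp, by linarith, hR3', hR4⟩
    have m23 : ((p, j2), (p + 1, j3)) ∈ Mn Λ := ⟨by simp, l2, hR3, hR4'⟩
    refine ⟨_, m12, _, m34, _, m14, _, m23, ?_, ?_⟩
    · simp only [phi, map_sub, map_mul, aeval_X, fR]
      ring
    · have hM := h.area_lt m14
      have := strip_om (M := (top.1 - bot.1) * (top.2 - bot.2) + 1) (a := j2 - j1)
        (b := j3 - j2) (c := j4 - j3) (by linarith) (by linarith) (by linarith)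
        (by unfold area at hM; simp only at hM; linarith)
      zify
      rw [om_cast h m12, om_cast h m34, om_cast h m14, om_cast h m23, om_cast h hR0,
        om_cast h hR0']
      unfold area
      simp only
      constructor
      · convert this.1 using 2 <;> ring
      · convert this.2 using 2 <;> ring
  · simp only at e1 e2 e3 l1 l2 l3
    subst e1 e2 e3
    have m12 : ((p, j1), (q, j1 + 1)) ∈ Mn Λ :=
      ⟨l1, by simp, hR3, h.rect p p' j1 (j1 + 1) q j1 hR3 hR4 l1.le l2.le le_rfl (by simp)⟩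
    have m34 : ((p', j1), (q', j1 + 1)) ∈ Mn Λ :=
      ⟨l3, by simp, h.rect q q' j1 (j1 + 1) p' (j1 + 1) hR3' hR4' l2.le l3.le (by simp) le_rfl,
        hR4'⟩
    have m14 : ((p, j1), (q', j1 + 1)) ∈ Mn Λ := ⟨by simp; linarith, by simp, hR3, hR4'⟩
    have m23 : ((q, j1), (p', j1 + 1)) ∈ Mn Λ := ⟨l2, by simp, hR3', hR4⟩
    refine ⟨_, m12, _, m34, _, m14, _, m23, ?_, ?_⟩
    · simp only [phi, map_sub, map_mul, aeval_X, fR]
      ring
    · have hM := h.area_lt m14
      have := strip_om (M := (top.1 - bot.1) * (top.2 - bot.2) + 1) (a := q - p)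
        (b := p' - q) (c := q' - p') (by linarith) (by linarith) (by linarith)
        (by unfold area at hM; simp only at hM; linarith)
      zify
      rw [om_cast h m12, om_cast h m34, om_cast h m14, om_cast h m23, om_cast h hR0,
        om_cast h hR0']
      unfold area
      simp only
      constructor
      · convert this.1 using 2 <;> ring
      · convert this.2 using 2 <;> ring

/-- `P` is congruent modulo quadrics to a combination of standard monomials. -/
def Red (K : Type*) [Field K] (Λ : Set Pt) (P : MvPolynomial (Pt × Pt) K) : Prop :=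
  ∃ Q : MvPolynomial (Pt × Pt) K,
    (∀ s ∈ Q.support, (∀ R ∈ s.support, R ∈ Mn Λ) ∧ Std (Finsupp.toMultiset s)) ∧
    P - Q ∈ quadI K Λ

theorem Red.zero {K : Type*} [Field K] {Λ : Set Pt} : Red K Λ 0 :=
  ⟨0, by simp, by simp⟩

theorem Red.add {K : Type*} [Field K] {Λ : Set Pt} {P P' : MvPolynomial (Pt × Pt) K}
    (h : Red K Λ P) (h' : Red K Λ P') : Red K Λ (P + P') := by
  classical
  obtain ⟨Q, h1, h2⟩ := h
  obtain ⟨Q', h1', h2'⟩ := h'
  refine ⟨Q + Q', fun s hs => ?_, ?_⟩
  · rcases Finset.mem_union.1 (support_add hs) with h | h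
    · exact h1 s h
    · exact h1' s h
  · have : P + P' - (Q + Q') = (P - Q) + (P' - Q') := by ring
    rw [this]
    exact Ideal.add_mem _ h2 h2'

theorem Red.smul {K : Type*} [Field K] {Λ : Set Pt} {P : MvPolynomial (Pt × Pt) K} (c : K)
    (h : Red K Λ P) : Red K Λ (c • P) := by
  obtain ⟨Q, h1, h2⟩ := h
  refine ⟨c • Q, fun s hs => h1 s (support_smul hs), ?_⟩
  rw [← smul_sub, smul_eq_C_mul]
  exact Ideal.mul_mem_left _ _ h2

theorem Red.of_mem {K : Type*} [Field K] {Λ : Set Pt} {P : MvPolynomial (Pt × Pt) K}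
    (h : P ∈ quadI K Λ) : Red K Λ P :=
  ⟨0, by simp, by simpa using h⟩

theorem mem_supported_X {K : Type*} [Field K] {Λ : Set Pt} {R : Pt × Pt} (h : R ∈ Mn Λ) :
    (X R : MvPolynomial (Pt × Pt) K) ∈ supported K (Mn Λ) := by
  rw [mem_supported]
  simpa [vars_X] using h

theorem red_monomial (K : Type*) [Field K] {Λ : Set Pt} {bot top : Pt} (h : Reg Λ bot top)
    (n : ℕ) : ∀ s : (Pt × Pt) →₀ ℕ, (∀ R ∈ s.support, R ∈ Mn Λ) →
      (Finsupp.liftAddHom fun R => (smulAddHom ℕ ℕ).flip
        (om ((top.1 - bot.1) * (top.2 - bot.2) + 1) R)) s = n →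
      Red K Λ (monomial s 1) := by
  classical
  set Om : ((Pt × Pt) →₀ ℕ) →+ ℕ := (Finsupp.liftAddHom fun R => (smulAddHom ℕ ℕ).flip
        (om ((top.1 - bot.1) * (top.2 - bot.2) + 1) R)) with hOm
  have hOm1 : ∀ R, Om (Finsupp.single R 1) = om ((top.1 - bot.1) * (top.2 - bot.2) + 1) R := by
    intro R
    simp [hOm]
  induction n using Nat.strong_induction_on with
  | _ n ih =>
    intro s hs hn
    by_cases hstd : Std (Finsupp.toMultiset s)
    · refine ⟨monomial s 1, fun s' hs' => ?_, by simp⟩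
      have : s' = s := by
        have := support_monomial_subset hs'
        simpa using this
      rw [this]
      exact ⟨hs, hstd⟩
    · unfold Std at hstd
      push Not at hstd
      obtain ⟨R, hRs, R', hRs', hcr⟩ := hstd
      rw [Finsupp.mem_toMultiset] at hRs hRs'
      have hcr' : CrV R R' ∨ CrH R R' := by
        by_cases h1 : CrV R R'
        · exact Or.inl h1
        · exact Or.inr (hcr h1)
      have hne : R ≠ R' := by
        rintro rfl
        rcases hcr' with ⟨_, _, _, l, _, _⟩ | ⟨_, _, _, l, _, _⟩ <;> exact lt_irrefl _ l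
      have hle : Finsupp.single R 1 + Finsupp.single R' 1 ≤ s := by
        intro x
        rw [Finsupp.add_apply, Finsupp.single_apply, Finsupp.single_apply]
        have h1 : 1 ≤ s R := Nat.one_le_iff_ne_zero.2 (Finsupp.mem_support_iff.1 hRs)
        have h2 : 1 ≤ s R' := Nat.one_le_iff_ne_zero.2 (Finsupp.mem_support_iff.1 hRs')
        by_cases e1 : R = x
        · subst e1
          rw [if_pos rfl, if_neg hne.symm]
          simpa using h1
        · rw [if_neg e1]
          by_cases e2 : R' = x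
          · subst e2
            rw [if_pos rfl]
            simpa using h2
          · rw [if_neg e2]
            simp
      obtain ⟨t, rfl⟩ := exists_add_of_le hle
      obtain ⟨R1, m1, R2, m2, R3, m3, R4, m4, hq, ho1, ho2⟩ :=
        exists_quad K h (hs R hRs) (hs R' hRs') hcr'
      have ht : ∀ x ∈ t.support, x ∈ Mn Λ := by
        intro x hx
        apply hs x
        rw [Finsupp.mem_support_iff, Finsupp.add_apply]
        have := Finsupp.mem_support_iff.1 hx
        omega
      have hsup : ∀ A ∈ Mn Λ, ∀ B ∈ Mn Λ, ∀ x ∈ (Finsupp.single A 1 + Finsupp.single B 1 +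
          t : (Pt × Pt) →₀ ℕ).support, x ∈ Mn Λ := by
        intro A hA B hB x hx
        rcases Finset.mem_union.1 (Finsupp.support_add hx) with hx | hx
        · rcases Finset.mem_union.1 (Finsupp.support_add hx) with hx | hx
          · have := Finsupp.support_single_subset hx
            rw [Finset.mem_singleton] at this
            rw [this]; exact hA
          · have := Finsupp.support_single_subset hx
            rw [Finset.mem_singleton] at this
            rw [this]; exact hB
        · exact ht x hx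
      have hmon : ∀ A B : Pt × Pt, (monomial (Finsupp.single A 1 + Finsupp.single B 1 + t) 1 :
          MvPolynomial (Pt × Pt) K) = X A * X B * monomial t 1 := by
        intro A B
        rw [X, X, monomial_mul, monomial_mul, one_mul, one_mul]
      have hr1 : Red K Λ (monomial (Finsupp.single R1 1 + Finsupp.single R2 1 + t) 1) := by
        refine ih _ ?_ _ (hsup R1 m1 R2 m2) rfl
        rw [← hn, map_add, map_add, map_add, map_add, hOm1, hOm1, hOm1, hOm1]
        omega
      have hr2 : Red K Λ (monomial (Finsupp.single R3 1 + Finsupp.single R4 1 + t) 1) := by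
        refine ih _ ?_ _ (hsup R3 m3 R4 m4) rfl
        rw [← hn, map_add, map_add, map_add, map_add, hOm1, hOm1, hOm1, hOm1]
        omega
      have hr3 : Red K Λ ((X R * X R' - X R1 * X R2 - X R3 * X R4) * monomial t 1) := by
        apply Red.of_mem
        apply Ideal.mul_mem_right
        apply Ideal.subset_span
        refine ⟨?_, hq, ?_⟩
        · refine Subalgebra.sub_mem _ (Subalgebra.sub_mem _ ?_ ?_) ?_ <;>
            refine Subalgebra.mul_mem _ (mem_supported_X ?_) (mem_supported_X ?_) <;>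
            first | assumption | exact hs _ hRs | exact hs _ hRs'
        · have hX : ∀ A B : Pt × Pt, (X A * X B : MvPolynomial (Pt × Pt) K).IsHomogeneous 2 :=
            fun A B => (isHomogeneous_X K A).mul (isHomogeneous_X K B)
          exact ((hX R R').sub (hX R1 R2)).sub (hX R3 R4)
      have : (monomial (Finsupp.single R 1 + Finsupp.single R' 1 + t) 1 :
          MvPolynomial (Pt × Pt) K) = (X R * X R' - X R1 * X R2 - X R3 * X R4) * monomial t 1 +
          monomial (Finsupp.single R1 1 + Finsupp.single R2 1 + t) 1 +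
          monomial (Finsupp.single R3 1 + Finsupp.single R4 1 + t) 1 := by
        rw [hmon, hmon, hmon]
        ring
      rw [this]
      exact (hr3.add hr1).add hr2

theorem red_all (K : Type*) [Field K] {Λ : Set Pt} {bot top : Pt} (h : Reg Λ bot top)
    (P : MvPolynomial (Pt × Pt) K) (hP : P ∈ supported K (Mn Λ)) : Red K Λ P := by
  classical
  rw [mem_supported] at hP
  rw [P.as_sum]
  refine Finset.sum_induction _ (Red K Λ) (fun _ _ => Red.add) Red.zero fun s hs => ?_
  have h1 : (monomial s (coeff s P) : MvPolynomial (Pt × Pt) K) = coeff s P • monomial s 1 := by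
    rw [smul_monomial, smul_eq_mul, mul_one]
  rw [h1]
  refine Red.smul _ (red_monomial K h _ s (fun R hR => hP ?_) rfl)
  exact Finset.mem_coe.2 ((mem_vars_iff_mem_support R).2 ⟨s, hs, hR⟩)

theorem phi_quadI {K : Type*} [Field K] {Λ : Set Pt} {P : MvPolynomial (Pt × Pt) K}
    (h : P ∈ quadI K Λ) : phi K P = 0 := by
  have : quadI K Λ ≤ RingHom.ker (phi K) := by
    rw [quadI, Ideal.span_le]
    rintro q ⟨-, hq, -⟩
    exact hq
  exact this h

/-- The criterion. -/
theorem crit (K : Type*) [Field K] {Λ : Set Pt} {bot top : Pt} (h : Reg Λ bot top)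
    (W : Pt → ℝ) (hT : Tot Λ W) : QG K Λ := by
  intro P hP h0
  obtain ⟨Q, h1, h2⟩ := red_all K h P hP
  have h3 : phi K Q = 0 := by
    have := phi_quadI h2
    rw [map_sub, h0, zero_sub, neg_eq_zero] at this
    exact this
  have h4 := std_indep W hT Q h1 h3
  rw [h4, sub_zero] at h2
  exact h2

end Pool.Agent.Helper28.JM
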