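import Mathlib

/-!
# Join-meet algebras of finite distributive lattices (MP_c39200_al): definitions
-/

set_option autoImplicit false

namespace Pool.Agent.Helper28.JM

open MvPolynomial

/-- The unordered pairs of incomparable elements of `L`. -/
def IncPair (L : Type*) [LE L] : Type _ :=
  {s : Sym2 L // ∃ a b : L, s = s(a, b) ∧ ¬ a ≤ b ∧ ¬ b ≤ a}

/-- The polynomial `f_{a,b} = x_a x_b - x_{a ∨ b} x_{a ∧ b}` attached to an unordered pair. -/
noncomputable def pairPoly (K : Type*) [Field K] (L : Type*) [Lattice L] :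
    Sym2 L → MvPolynomial L K :=
  Sym2.lift ⟨fun a b => X a * X b - X (a ⊔ b) * X (a ⊓ b), fun a b => by
    change X a * X b - X (a ⊔ b) * X (a ⊓ b) = X b * X a - X (b ⊔ a) * X (b ⊓ a)
    rw [mul_comm (X a) (X b), sup_comm a b, inf_comm a b]⟩

/-- The map `y_{a,b} ↦ f_{a,b}` from the polynomial ring with one variable for each unordered
pair of incomparable elements. Its range is the join-meet algebra of `L`. -/
noncomputable def joinMeetMap (K : Type*) [Field K] (L : Type*) [Lattice L] :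
    MvPolynomial (IncPair L) K →ₐ[K] MvPolynomial L K :=
  aeval fun p : IncPair L => pairPoly K L p.1

/-- The defining ideal of the join-meet algebra. -/
noncomputable def definingIdeal (K : Type*) [Field K] (L : Type*) [Lattice L] :
    Ideal (MvPolynomial (IncPair L) K) :=
  RingHom.ker (joinMeetMap K L)

/-- The ideal `I` is generated by homogeneous elements of degree `2`. -/
def GeneratedByQuadrics {σ : Type*} {K : Type*} [Field K] (I : Ideal (MvPolynomial σ K)) : Prop :=
  I = Ideal.span {q | q ∈ I ∧ q.IsHomogeneous 2}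

/-- `⊥` and `⊤` are the only elements comparable to all elements. -/
def IsSimpleLat (L : Type*) [Lattice L] [BoundedOrder L] : Prop :=
  ∀ a : L, (∀ b : L, a ≤ b ∨ b ≤ a) → a = ⊥ ∨ a = ⊤

/-- Every three join-irreducible elements contain a comparable pair. -/
def IsPlanarLat (L : Type*) [Lattice L] : Prop :=
  ∀ a b c : L, SupIrred a → SupIrred b → SupIrred c → a ≠ b → a ≠ c → b ≠ c →
    (a ≤ b ∨ b ≤ a) ∨ (a ≤ c ∨ c ≤ a) ∨ (b ≤ c ∨ c ≤ b)

/-- The intervals `[u, v]` of `L` isomorphic to the `3 × 3` grid (the divisor lattice of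
`2^2 * 3^2`), given by their end points. -/
def gridIntervals (L : Type*) [Lattice L] : Set (L × L) :=
  {p | Nonempty (Set.Icc p.1 p.2 ≃o Fin 3 × Fin 3)}

/-! ### The same objects for a region of the integer plane -/

/-- Points of the plane. -/
abbrev Pt := ℤ × ℤ

/-- The rectangles of a region, each given by its lower left and its upper right corner; the
other two corners are required to lie in the region. -/
def Mn (Λ : Set Pt) : Set (Pt × Pt) :=
  {R | R.1.1 < R.2.1 ∧ R.1.2 < R.2.2 ∧ (R.1.1, R.2.2) ∈ Λ ∧ (R.2.1, R.1.2) ∈ Λ}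

/-- The binomial of a rectangle. -/
noncomputable def fR (K : Type*) [Field K] (R : Pt × Pt) : MvPolynomial Pt K :=
  X (R.1.1, R.2.2) * X (R.2.1, R.1.2) - X R.1 * X R.2

/-- The map `y_R ↦ f_R`. -/
noncomputable def phi (K : Type*) [Field K] : MvPolynomial (Pt × Pt) K →ₐ[K] MvPolynomial Pt K :=
  aeval (fR K)

/-- The ideal generated by the quadratic relations between the rectangles of a region. -/
noncomputable def quadI (K : Type*) [Field K] (Λ : Set Pt) : Ideal (MvPolynomial (Pt × Pt) K) :=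
  Ideal.span {q | q ∈ supported K (Mn Λ) ∧ phi K q = 0 ∧ q.IsHomogeneous 2}

/-- The relations between the rectangles of the region are generated by quadrics. -/
def QG (K : Type*) [Field K] (Λ : Set Pt) : Prop :=
  ∀ p ∈ supported K (Mn Λ), phi K p = 0 → p ∈ quadI K Λ

/-- The regions which are simple planar distributive lattices. -/
structure Reg (Λ : Set Pt) (bot top : Pt) : Prop where
  fin : Λ.Finite
  bot_mem : bot ∈ Λ
  top_mem : top ∈ Λ
  bot_le : ∀ x ∈ Λ, bot ≤ x
  le_top : ∀ x ∈ Λ, x ≤ top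
  rect : ∀ i i' j j' s t : ℤ, (i, j') ∈ Λ → (i', j) ∈ Λ → i ≤ s → s ≤ i' → j ≤ t → t ≤ j' →
    (s, t) ∈ Λ
  down : ∀ x ∈ Λ, x ≠ bot → (x.1 - 1, x.2) ∈ Λ ∨ (x.1, x.2 - 1) ∈ Λ
  up : ∀ x ∈ Λ, x ≠ top → (x.1 + 1, x.2) ∈ Λ ∨ (x.1, x.2 + 1) ∈ Λ
  simple : ∀ x ∈ Λ, x ≠ bot → x ≠ top → (x.1 + 1, x.2 - 1) ∈ Λ ∨ (x.1 - 1, x.2 + 1) ∈ Λ

/-- The `3 × 3` block with lower left corner `u` lies in the region (for regions with the
property `rect` it is enough to have these two corners). -/
def Blk (Λ : Set Pt) (u : Pt) : Prop :=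
  (u.1, u.2 + 2) ∈ Λ ∧ (u.1 + 2, u.2) ∈ Λ

end Pool.Agent.Helper28.JM
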