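import Pool.Agent.Helper28.JM.Build3
import Pool.Agent.Helper28.JM.Crit2
import Pool.Agent.Helper26.JMBase
import Pool.Agent.Helper40.JMOnlyIf

/-!
# At most one block: the relations are generated by quadrics
-/

set_option autoImplicit false

namespace Pool.Agent.Helper28.JM

open Pool.Agent.Helper52.JMSym Pool.Agent.Helper40.JM

theorem swW_sqrW (u : Pt) : swW (sqrW u) = sqrW (u.2, u.1) := by
  funext x
  unfold swW sqrW
  simp only
  rw [add_comm x.2 x.1, add_comm u.1 u.2]

theorem swS_sqr (u : Pt) : swS (sqr u) = sqr (u.2, u.1) := by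
  ext x
  simp only [swS, sqr, Set.mem_setOf_eq]
  tauto

theorem swW_blkW (u : Pt) : swW (blkW u) = blkW (u.2, u.1) := by
  funext x
  unfold swW blkW
  simp only
  rw [add_comm x.2 x.1, add_comm u.1 u.2]

theorem swS_blk (u : Pt) : swS (blk u) = blk (u.2, u.1) := by
  ext x
  simp only [swS, blk, Set.mem_setOf_eq]
  tauto

theorem rectP_blk (u : Pt) : RectP (blk u) := by
  intro i i' j j' s t h1 h2 h3 h4 h5 h6
  simp only [blk, Set.mem_setOf_eq] at h1 h2 ⊢
  omega

theorem caseThin (K : Type*) [Field K] {Λ : Set Pt} {bot top : Pt} (hR : Reg Λ bot top)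
    (h1 : ∀ u, ¬ Blk Λ u) : QG K Λ := by
  have hthin : ∀ x ∈ Λ, ¬ ((x.1 + 1, x.2 - 1) ∈ Λ ∧ (x.1 + 2, x.2 - 2) ∈ Λ) := by
    rintro x hx ⟨-, h3⟩
    apply h1 (x.1, x.2 - 2)
    refine ⟨?_, ?_⟩
    · simp only [sub_add_cancel]
      exact hx
    · exact h3
  by_cases hM : Mn Λ = ∅
  · exact crit K hR (fun _ => 0) (tot_of_no_rect Λ _ hM)
  obtain ⟨⟨⟨x1, y1⟩, ⟨x2, y2⟩⟩, hm⟩ := Set.nonempty_iff_ne_empty.2 hM
  obtain ⟨m1, m2, m3, m4⟩ := hm
  simp only at m1 m2 m3 m4
  have m5 : (x1, y1) ∈ Λ := hR.rect x1 x2 y1 y2 x1 y1 m3 m4 le_rfl m1.le le_rfl m2.le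
  have m6 : (x2, y2) ∈ Λ := hR.rect x1 x2 y1 y2 x2 y2 m3 m4 m1.le le_rfl m2.le le_rfl
  have b1 := (hR.bot_le _ m5).1
  have b2 := (hR.bot_le _ m5).2
  have b3 := (hR.le_top _ m6).1
  have b4 := (hR.le_top _ m6).2
  simp only at b1 b2 b3 b4
  have hc : (top.1 - 1, top.2) ∈ Λ ∧ (top.1, top.2 - 1) ∈ Λ := by
    have hne : top ≠ bot := by
      intro e
      rw [e] at b3
      omega
    rcases hR.down top hR.top_mem hne with h | h
    · refine ⟨h, ?_⟩
      rcases hR.simple _ h (by intro e; rw [← e] at b1 b2; simp only at b1 b2; omega)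
        (by intro e; have := congrArg Prod.fst e; simp only at this; omega) with h' | h'
      · simpa using h'
      · exfalso
        have := (hR.le_top _ h').2
        simp only at this
        omega
    · refine ⟨?_, h⟩
      rcases hR.simple _ h (by intro e; rw [← e] at b1 b2; simp only at b1 b2; omega)
        (by intro e; have := congrArg Prod.snd e; simp only at this; omega) with h' | h'
      · exfalso
        have := (hR.le_top _ h').1
        simp only at this
        omega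
      · simpa using h'
  set w0 : Pt := (top.1 - 1, top.2 - 1) with hw0
  have hw0m : w0 ∈ Λ := hR.rect (top.1 - 1) top.1 (top.2 - 1) top.2 _ _ hc.1 hc.2 le_rfl
    (by omega) le_rfl (by omega)
  have hset : Λ ∩ Set.Ici w0 = sqr w0 := by
    ext ⟨x, y⟩
    constructor
    · rintro ⟨hx, hxy⟩
      have e1 : top.1 - 1 ≤ x := hxy.1
      have e2 : top.2 - 1 ≤ y := hxy.2
      have e3 := (hR.le_top _ hx).1
      have e4 := (hR.le_top _ hx).2
      simp only [sqr, Set.mem_setOf_eq, hw0] at e3 e4 ⊢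
      omega
    · intro hx
      simp only [sqr, Set.mem_setOf_eq, hw0] at hx
      refine ⟨hR.rect (top.1 - 1) top.1 (top.2 - 1) top.2 x y hc.1 hc.2 (by omega) (by omega)
        (by omega) (by omega), ⟨?_, ?_⟩⟩
      · simp only [hw0]; omega
      · simp only [hw0]; omega
  have hcl : Cl Λ w0 (sqrW w0) (w0.1 + w0.2 + 1) w0 := by
    refine ⟨sqrW w0, fun x _ => rfl, ?_, ⟨1, true, ?_, ?_⟩, ⟨1, true, ?_, ?_⟩, ?_⟩
    · rw [hset]
      exact tot_sqr w0
    · rw [hset]
      exact stF_sqr w0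
    · unfold Bd
      simp
    · rw [hset, swS_sqr, swW_sqrW]
      exact stF_sqr (w0.2, w0.1)
    · unfold Bd
      simp
      omega
    · intro R hR1 hR2
      exact absurd hR1 hR2
  obtain ⟨W, -, hT, -⟩ := build hR hw0m (fun x hx _ => hthin x hx) hcl
  exact crit K hR W hT

theorem caseBlock (K : Type*) [Field K] {Λ : Set Pt} {bot top : Pt} (hR : Reg Λ bot top)
    (u : Pt) (hu : Blk Λ u) (h1 : ∀ v, Blk Λ v → v = u) : QG K Λ := by
  have hb : ∀ s t : ℤ, u.1 ≤ s → s ≤ u.1 + 2 → u.2 ≤ t → t ≤ u.2 + 2 → (s, t) ∈ Λ :=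
    fun s t a1 a2 a3 a4 => hR.rect u.1 (u.1 + 2) u.2 (u.2 + 2) s t hu.1 hu.2 a1 a2 a3 a4
  have N1 : (u.1, u.2 + 3) ∉ Λ := by
    intro h
    have := h1 (u.1, u.2 + 1) ⟨by simp only; convert h using 2; ring,
      hb _ _ (by simp) (by simp) (by simp) (by simp)⟩
    have := congrArg Prod.snd this
    simp only at this
    omega
  have N2 : (u.1 + 3, u.2) ∉ Λ := by
    intro h
    have := h1 (u.1 + 1, u.2) ⟨hb _ _ (by simp) (by simp) (by simp) (by simp),
      by simp only; convert h using 2; ring⟩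
    have := congrArg Prod.fst this
    simp only at this
    omega
  have hlev3 : ∀ x ∈ Λ, (x.1 + 2, x.2 - 2) ∈ Λ → x.1 + x.2 = u.1 + u.2 + 2 := by
    intro x hx hx2
    have := h1 (x.1, x.2 - 2) ⟨by simp only [sub_add_cancel]; exact hx, hx2⟩
    have e1 := congrArg Prod.fst this
    have e2 := congrArg Prod.snd this
    simp only at e1 e2
    omega
  have humem : u ∈ Λ := hb u.1 u.2 le_rfl (by omega) le_rfl (by omega)
  -- the upper part, by reflection
  have hR1 : Reg (Λ ∩ Set.Ici u) u top := reg_Ici Λ bot top u hR hu N1 N2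
  have hRn := reg_ng hR1
  set Λn : Set Pt := ngS (Λ ∩ Set.Ici u) with hΛn
  set w0 : Pt := (-(u.1 + 2), -(u.2 + 2)) with hw0
  have hw0m : w0 ∈ Λn := by
    refine ⟨?_, ?_⟩
    · have := hb (u.1 + 2) (u.2 + 2) (by omega) le_rfl (by omega) le_rfl
      simpa [hw0] using this
    · constructor
      · simp [hw0]
      · simp [hw0]
  have hsetn : Λn ∩ Set.Ici w0 = blk w0 := by
    ext ⟨x, y⟩
    constructor
    · rintro ⟨⟨hx, hxy⟩, hxw⟩
      have e1 : u.1 ≤ -x := hxy.1
      have e2 : u.2 ≤ -y := hxy.2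
      have e3 : -(u.1 + 2) ≤ x := hxw.1
      have e4 : -(u.2 + 2) ≤ y := hxw.2
      simp only [blk, Set.mem_setOf_eq, hw0]
      omega
    · intro hx
      simp only [blk, Set.mem_setOf_eq, hw0] at hx
      refine ⟨⟨hb (-x) (-y) (by omega) (by omega) (by omega) (by omega), ⟨?_, ?_⟩⟩, ⟨?_, ?_⟩⟩
      · simp only; omega
      · simp only; omega
      · simp only [hw0]; omega
      · simp only [hw0]; omega
  have hcln : Cl Λn w0 (blkW w0) (w0.1 + w0.2 + 2) w0 := by
    have hst : ∀ v : Pt, StF (blk v) (blkW v) v.1 v.2 2 true := by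
      intro v
      refine stF_blk v (blk v) (blkW v) (fun x hx => ⟨hx.1, hx.2.2.1⟩) subset_rfl ?_
        (rectP_blk v) (fun _ _ => rfl) (fun R h h' => absurd h h')
      intro hx
      have := hx.2.2.2
      simp only at this
      omega
    refine ⟨blkW w0, fun x _ => rfl, ?_, ⟨2, true, ?_, ?_⟩, ⟨2, true, ?_, ?_⟩, ?_⟩
    · rw [hsetn]
      exact tot_blk w0
    · rw [hsetn]
      exact hst w0
    · unfold Bd
      simp
    · rw [hsetn, swS_blk, swW_blkW]
      exact hst (w0.2, w0.1)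
    · unfold Bd
      simp
      omega
    · intro R hR1 hR2
      exact absurd hR1 hR2
  obtain ⟨Wn, hWn, hTn, hLn⟩ := build hRn hw0m (by
    rintro x hx hlev ⟨-, hx2⟩
    have e := hlev3 (-(x.1 + 2), -(x.2 - 2)) hx2.1 (by
      have := hx.1
      simp only
      convert this using 2 <;> ring)
    simp only [hw0] at e hlev
    omega) hcln
  rw [hsetn] at hWn hLn
  have hT1 : Tot (Λ ∩ Set.Ici u) (ngW Wn) := by
    have := tot_ng hTn
    rwa [hΛn, ngS_ngS] at this
  have hW1 : ∀ x ∈ blk u, ngW Wn x = blkW u x := by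
    intro x hx
    have hx' : (-x.1, -x.2) ∈ blk w0 := by
      simp only [blk, Set.mem_setOf_eq, hw0] at hx ⊢
      omega
    unfold ngW
    rw [hWn _ hx']
    unfold blkW
    simp only [hw0]
    congr 1
    apply propext
    omega
  have hnew : ∀ R ∈ Mn (Λ ∩ Set.Ici u), R ∉ Mn (blk u) → ∀ x ∈ ld (ngW Wn) R,
      u.1 + u.2 + 2 ≤ x.1 + x.2 := by
    intro R hR2 hnot x hx
    have hR' : ngR R ∈ Mn Λn := mem_Mn_ng.2 hR2
    have hnot' : ngR R ∉ Mn (blk w0) := by
      intro hc
      apply hnot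
      rw [mem_Mn_ng'] at hc
      have : ngS (blk w0) = blk u := by
        ext y
        simp only [ngS, blk, Set.mem_setOf_eq, hw0]
        omega
      rwa [this] at hc
    have e := ld_ng (ngW Wn) R
    rw [ngW_ngW] at e
    have hx' : (-x.1, -x.2) ∈ ld Wn (ngR R) := by
      rw [e, Multiset.mem_map]
      exact ⟨x, hx, rfl⟩
    have := hLn _ hR' hnot' _ hx'
    simp only [hw0] at this
    omega
  have hcl : Cl Λ u (ngW Wn) (u.1 + u.2 + 2) u := by
    have hsub : blk u ⊆ Λ ∩ Set.Ici u := by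
      rintro ⟨x, y⟩ hx
      simp only [blk, Set.mem_setOf_eq] at hx
      exact ⟨hb x y (by omega) (by omega) (by omega) (by omega), ⟨hx.1, hx.2.2.1⟩⟩
    refine ⟨ngW Wn, fun x _ => rfl, hT1, ⟨2, true, ?_, ?_⟩, ⟨2, true, ?_, ?_⟩, ?_⟩
    · exact stF_blk u _ _ (fun x hx => ⟨hx.2.1, hx.2.2⟩) hsub (fun hx => N1 hx.1)
        (rectP_inter hR u) hW1 hnew
    · unfold Bd
      simp
    · refine stF_blk (u.2, u.1) _ _ (fun x hx => ⟨hx.2.2, hx.2.1⟩) ?_ (fun hx => N2 hx.1) ?_ ?_ ?_
      · rw [← swS_blk]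
        intro x hx
        exact hsub hx
      · rw [swS_inter]
        exact rectP_inter (reg_sw hR) (u.2, u.1)
      · rw [← swS_blk, ← swW_blkW]
        intro x hx
        exact hW1 _ hx
      · rw [← swS_blk]
        intro R hR2 hnot x hx
        have hR' : swR R ∈ Mn (Λ ∩ Set.Ici u) := mem_Mn_sw'.2 hR2
        have hnot' : swR R ∉ Mn (blk u) := fun hc => hnot (mem_Mn_sw'.1 hc)
        have hx' : (x.2, x.1) ∈ ld (ngW Wn) (swR R) := by
          have e := ld_sw (ngW Wn) (swR R)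
          rw [swR_swR] at e
          rw [e, Multiset.mem_map] at hx
          obtain ⟨y, hy, rfl⟩ := hx
          exact hy
        have := hnew _ hR' hnot' _ hx'
        simp only at this ⊢
        omega
    · unfold Bd
      simp
      omega
    · intro R hR1 hR2
      exact absurd hR1 hR2
  obtain ⟨W, -, hT, -⟩ := build hR humem (by
    rintro x hx hlev ⟨-, hx2⟩
    have := hlev3 x hx hx2
    omega) hcl
  exact crit K hR W hT

theorem QG_iff (K : Type*) [Field K] {Λ : Set Pt} {bot top : Pt} (hR : Reg Λ bot top) :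
    QG K Λ ↔ ∀ u v, Blk Λ u → Blk Λ v → u = v := by
  constructor
  · intro h u v hu hv
    by_contra hne
    exact not_QG_of_two_blocks K Λ bot top hR u v hu hv hne h
  · intro h
    by_cases he : ∃ u, Blk Λ u
    · obtain ⟨u, hu⟩ := he
      exact caseBlock K hR u hu (fun v hv => h v u hv hu)
    · push Not at he
      exact caseThin K hR he

end Pool.Agent.Helper28.JM
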